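import Pool.Agent.Helper61.LN.Goals

/-!
# PROJECT LN (MP_c65973_gt), packet GEL: colourings and the genus
-/

set_option autoImplicit false

namespace Pool.Agent.Helper7.LN.GEL

open Pool.Agent.Helper31.Sk Pool.Agent.Helper35.Skl Pool.Agent.Helper61.LN

/-- the genus is attained -/
theorem ge_mem (w : Word) (h : ℕ) (hg : ge w = h) :
    ∃ t : Word, Legal (4 * h) t 0 ∧ Iso 0 0 w (surf h t) := by
  have hne : {k : ℕ∞ | ∃ (h : ℕ) (t : Word), k = h ∧ Legal (4 * h) t 0 ∧
      Iso 0 0 w (surf h t)}.Nonempty := by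
    by_contra hcon
    rw [Set.not_nonempty_iff_eq_empty] at hcon
    have h1 : ge w = ⊤ := by
      unfold ge
      rw [hcon]
      exact sInf_empty
    rw [h1] at hg
    exact absurd hg.symm (ENat.natCast_ne_top h)
  have hmem := csInf_mem hne
  obtain ⟨h', t, h1, h2, h3⟩ := hmem
  have h4 : (h : ℕ∞) = h' := hg.symm.trans h1
  have h5 : h = h' := by exact_mod_cast h4
  rw [h5]
  exact ⟨t, h2, h3⟩

theorem cups_le {q : ℕ} [NeZero q] (n B : ℕ) (φ : (ℕ → ZMod q) → ℕ) (hφ : ∀ x, φ x ≤ B)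
    (x : ℕ → ZMod q) : ev (List.replicate n (1, Gen.cup)) φ x ≤ q ^ n * B := by
  induction n generalizing x with
  | zero => simpa [ev] using hφ x
  | succ n ih =>
    rw [List.replicate_succ]
    show ∑ c : ZMod q, ev (List.replicate n (1, Gen.cup)) φ (insF 1 c c x) ≤ _
    refine (Finset.sum_le_card_nsmul _ _ (q ^ n * B) (fun c _ => ih _)).trans ?_
    rw [Finset.card_univ, ZMod.card, smul_eq_mul, pow_succ]
    exact le_of_eq (by ring)

/-- the indicator function -/
def ind (m : ℕ) : ℕ → ZMod 2 := fun j => if j < m then 1 else 0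

theorem ins_zero (i : ℕ) : insF i 0 0 (0 : ℕ → ZMod 2) = 0 := by
  funext j
  simp only [insF, Pi.zero_apply]
  split_ifs <;> rfl

theorem ins_ind0 : insF 0 1 1 (0 : ℕ → ZMod 2) = ind 2 := by
  funext j
  simp only [insF, Pi.zero_apply, ind]
  split_ifs <;> first | rfl | omega

theorem ins_ind (m : ℕ) (hm : 1 ≤ m) : insF 1 1 1 (ind m) = ind (m + 2) := by
  funext j
  simp only [insF, ind]
  split_ifs <;> first | rfl | omega

theorem cups_zero (n : ℕ) (φ : (ℕ → ZMod 2) → ℕ) :
    φ 0 ≤ ev (List.replicate n (1, Gen.cup)) φ 0 := by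
  induction n with
  | zero => exact le_rfl
  | succ n ih =>
    rw [List.replicate_succ]
    show _ ≤ ∑ c : ZMod 2, ev (List.replicate n (1, Gen.cup)) φ (insF 1 c c 0)
    refine ih.trans ?_
    have h1 := Finset.single_le_sum
      (f := fun c : ZMod 2 => ev (List.replicate n (1, Gen.cup)) φ (insF 1 c c 0))
      (fun _ _ => Nat.zero_le _) (Finset.mem_univ (0 : ZMod 2))
    rw [ins_zero] at h1
    exact h1

theorem cups_ind (n : ℕ) (φ : (ℕ → ZMod 2) → ℕ) (m : ℕ) (hm : 1 ≤ m) :
    φ (ind (m + 2 * n)) ≤ ev (List.replicate n (1, Gen.cup)) φ (ind m) := by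
  induction n generalizing m with
  | zero => exact le_rfl
  | succ n ih =>
    rw [List.replicate_succ]
    show _ ≤ ∑ c : ZMod 2, ev (List.replicate n (1, Gen.cup)) φ (insF 1 c c (ind m))
    have h1 := Finset.single_le_sum
      (f := fun c : ZMod 2 => ev (List.replicate n (1, Gen.cup)) φ (insF 1 c c (ind m)))
      (fun _ _ => Nat.zero_le _) (Finset.mem_univ (1 : ZMod 2))
    rw [ins_ind m hm] at h1
    refine le_trans ?_ h1
    have h2 := ih (m + 2) (by omega)
    have e : m + 2 + 2 * n = m + 2 * (n + 1) := by ring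
    rwa [e] at h2

theorem leg_dbl (w : Word) : ∀ m n : ℕ, Legal m w n → Legal (2 * m) (dbl w) (2 * n) := by
  induction w with
  | nil =>
    intro m n h
    simp only [Legal] at h
    subst h
    rfl
  | cons s w ih =>
    intro m n h
    obtain ⟨i, g⟩ := s
    obtain ⟨h1, h2⟩ := h
    have h3 := ih _ _ h2
    have h4 : dbl ((i, g) :: w) = dbl1 (i, g) ++ dbl w := by simp [dbl]
    rw [h4]
    cases g
    · simp only [Gen.src, Gen.tgt] at h1 h3
      simp only [dbl1, List.cons_append, List.nil_append, Legal, Gen.src, Gen.tgt]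
      refine ⟨by omega, by omega, ?_⟩
      have e : 2 * m - 0 + 2 - 0 + 2 = 2 * (m - 0 + 2) := by omega
      rw [e]; exact h3
    · simp only [Gen.src, Gen.tgt] at h1 h3
      simp only [dbl1, List.cons_append, List.nil_append, Legal, Gen.src, Gen.tgt]
      refine ⟨by omega, by omega, ?_⟩
      have e : 2 * m - 2 + 0 - 2 + 0 = 2 * (m - 2 + 0) := by omega
      rw [e]; exact h3
    · simp only [Gen.src, Gen.tgt] at h1 h3
      simp only [dbl1, List.cons_append, List.nil_append, Legal, Gen.src, Gen.tgt]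
      refine ⟨by omega, by omega, by omega, by omega, ?_⟩
      have e : 2 * m - 2 + 2 - 2 + 2 - 2 + 2 - 2 + 2 = 2 * (m - 2 + 2) := by omega
      rw [e]; exact h3
    · simp only [Gen.src, Gen.tgt] at h1 h3
      simp only [dbl1, List.cons_append, List.nil_append, Legal, Gen.src, Gen.tgt]
      refine ⟨by omega, by omega, by omega, by omega, ?_⟩
      have e : 2 * m - 2 + 2 - 2 + 2 - 2 + 2 - 2 + 2 = 2 * (m - 2 + 2) := by omega
      rw [e]; exact h3

theorem t (h1 : S_INV) (h2 : S_SUB) (h3 : S_KP) (h4 : S_K1) (h5 : S_DB2) (h6 : S_ONE) :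
    S_GEL := by
  intro w h hw hg
  obtain ⟨t, ht, hiso⟩ := ge_mem w h hg
  have hW : IsKnot (surf h t) := (iso_isKnot hiso).1 hw
  have he : e3 w 0 = e3 (surf h t) 0 := h1 3 0 0 w (surf h t) hiso _ _
  rw [he]
  rcases Nat.eq_zero_or_pos h with h0 | h0
  · subst h0
    have e : surf 0 t = unknot := by simp [surf]
    rw [e]
    show ev unknot (fun _ => 1) 0 ≤ _
    simp only [unknot, ev, op]
    refine (Finset.sum_le_card_nsmul _ _ 1 (fun c _ => ?_)).trans ?_
    · split_ifs <;> omega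
    · simp [Finset.card_univ, ZMod.card]
  · have e : surf h t = (0, Gen.cup) :: (List.replicate (4 * h - 1) (1, Gen.cup) ++ dbl t) := by
      unfold surf
      rw [if_neg (by omega)]
    -- two colours
    have hk := h3 _ hW
    have hlow : e2 (dbl t) 0 + e2 (dbl t) (ind (8 * h)) ≤ e2 (surf h t) 0 := by
      rw [e]
      show _ ≤ ∑ c : ZMod 2, ev (List.replicate (4 * h - 1) (1, Gen.cup) ++ dbl t) (fun _ => 1)
        (insF 0 c c 0)
      rw [ev_append]
      have e2s : ∀ F : ZMod 2 → ℕ, ∑ c : ZMod 2, F c = F 0 + F 1 := fun F => Fin.sum_univ_two F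
      rw [e2s, ins_zero, ins_ind0]
      have a1 := cups_zero (4 * h - 1) (ev (dbl t) (fun _ : ℕ → ZMod 2 => 1))
      have a2 := cups_ind (4 * h - 1) (ev (dbl t) (fun _ : ℕ → ZMod 2 => 1)) 2 (by norm_num)
      have a3 : 2 + 2 * (4 * h - 1) = 8 * h := by omega
      rw [a3] at a2
      exact add_le_add a1 a2
    have hone : 1 ≤ e2 (dbl t) (ind (8 * h)) := by
      refine h6 (8 * h) (dbl t) ?_
      have := leg_dbl t (4 * h) 0 ht
      have e' : 2 * (4 * h) = 8 * h := by ring
      rwa [e'] at this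
    have hdb : e2 t 0 ≤ e2 (dbl t) 0 := h5 t 0
    have ht1 : e2 t 0 ≤ 1 := by omega
    have ht3 : e3 (dbl t) 0 ≤ 1 := h4 t ht1
    -- three colours
    have hsub : SubInd 3 (fun (x : ℕ → ZMod 3) (_ : ZMod 3) => (1 : ℕ)) :=
      ⟨1, ⊤, fun _ _ _ => rfl, fun x c hxc => absurd (AddSubgroup.mem_top _) hxc⟩
    obtain ⟨κ, U, hU1, hU2⟩ := h2 3 (dbl t) _ hsub
    have hκ : κ ≤ 1 := by
      have := hU1 0 0 (by exact U.zero_mem)
      rw [← this]
      exact ht3
    have hall : ∀ x : ℕ → ZMod 3, ev (dbl t) (fun _ => 1) x ≤ 1 := by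
      intro x
      by_cases hx : (x, (0 : ZMod 3)) ∈ U
      · have := hU1 x 0 hx
        simp only at this
        rw [this]; exact hκ
      · have := hU2 x 0 hx
        simp only at this
        rw [this]; exact Nat.zero_le _
    rw [e]
    show ∑ c : ZMod 3, ev (List.replicate (4 * h - 1) (1, Gen.cup) ++ dbl t) (fun _ => 1)
        (insF 0 c c 0) ≤ _
    rw [ev_append]
    refine (Finset.sum_le_card_nsmul _ _ (3 ^ (4 * h - 1) * 1)
      (fun c _ => cups_le (4 * h - 1) 1 _ hall _)).trans ?_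
    rw [Finset.card_univ, ZMod.card, smul_eq_mul, mul_one, ← pow_succ']
    exact Nat.pow_le_pow_right (by norm_num) (by omega)

end Pool.Agent.Helper7.LN.GEL
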